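import Pool.Agent.H655.CM.Coding
import Pool.Agent.H655.SB.Conn

/-!
MP_7d75c8_lc, Q1: for every `n`, homeomorphism of connected topological `n`-manifolds is classifiable
by countable structures.
-/

set_option autoImplicit false

open Set Filter Topology

namespace Pool.Agent.Results.MP_7d75c8_lc.HomeoClassifiable

open Pool.Agent.H655.CM

/-- The space of codes of connected topological `n`-manifolds: a code is a sequence of open subsets
`V i i` of `ℝⁿ` together with continuous gluing maps `φ i j` from the open subset `V i j` of `V i i`
onto the open subset `V j i` of `V j j`, satisfying the cocycle conditions and the Hausdorff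
condition; `c.Pts` is the manifold glued from these data, and it has to be connected. -/
def ConnCode (n : ℕ) : Type :=
  {c : Code (EuclideanSpace ℝ (Fin n)) // ConnectedSpace c.Pts}

/-- The Borel structure of the space of codes: it is generated by the conditions `S ⊆ V i j`, for `S`
compact, and `φ i j x ∈ B`, for `x` a point and `B` a Borel set. -/
noncomputable instance connBorel (n : ℕ) : MeasurableSpace (ConnCode n) :=
  MeasurableSpace.comap Subtype.val (measC : MeasurableSpace (Code (EuclideanSpace ℝ (Fin n))))

/-- The coded manifold. -/
abbrev Coded (n : ℕ) (c : ConnCode n) : Type := Code.Pts c.1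

/-- The coded manifolds are homeomorphic. -/
def Homeomorphic (n : ℕ) (c c' : ConnCode n) : Prop :=
  Nonempty (Coded n c ≃ₜ Coded n c')

/-- The coded space is a connected Hausdorff second countable topological `n`-manifold. -/
def GluesToManifold (n : ℕ) (c : ConnCode n) : Prop :=
  T2Space (Coded n c) ∧ SecondCountableTopology (Coded n c) ∧ ConnectedSpace (Coded n c) ∧
    Nonempty (ChartedSpace (EuclideanSpace ℝ (Fin n)) (Coded n c))

/-- The space `N` is homeomorphic to a coded manifold. -/
def HasCode (n : ℕ) (N : Type) [TopologicalSpace N] : Prop :=
  ∃ c : ConnCode n, Nonempty (N ≃ₜ Coded n c)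

/-- For every `n`: the space of codes of connected topological `n`-manifolds is a standard Borel
space; every code glues to a connected Hausdorff second countable topological `n`-manifold; every
connected Hausdorff second countable topological `n`-manifold is homeomorphic to a coded one; and
the relation of homeomorphism on the space of codes of connected topological `n`-manifolds is
classifiable by countable structures. -/
theorem result (n : ℕ) :
    StandardBorelSpace (ConnCode n) ∧
    (∀ c : ConnCode n, GluesToManifold n c) ∧
    (∀ (N : Type) [TopologicalSpace N] [ChartedSpace (EuclideanSpace ℝ (Fin n)) N]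
      [T2Space N] [SecondCountableTopology N] [ConnectedSpace N], HasCode n N) ∧
    ClassifiableByCountableStructures (Homeomorphic n) := by
  refine ⟨Pool.Agent.H655.SB.sb_conn,
    fun c => ⟨inferInstance, inferInstance, c.2, ⟨inferInstance⟩⟩, ?_, ?_⟩
  · intro N _ _ _ _ _
    obtain ⟨c, ⟨f⟩⟩ := exists_code (E := EuclideanSpace ℝ (Fin n)) (N := N)
    have hc : ConnectedSpace c.Pts := f.surjective.connectedSpace f.continuous
    exact ⟨⟨c, hc⟩, ⟨f⟩⟩
  · exact (classifiable_all (E := EuclideanSpace ℝ (Fin n))).subtype
      (fun c => ConnectedSpace c.Pts)

end Pool.Agent.Results.MP_7d75c8_lc.HomeoClassifiable
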